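import Pool.Agent.P8H4.PL.Plc

/-!
# Every finite place is given by an embedding into an algebraic closure of the `q`-adic numbers
-/

set_option autoImplicit false

open NumberField IsDedekindDomain

namespace Pool.Agent.P8H55.UL

open Pool.Agent.TH841.NF (pls pid mem_pid norm_le_one_of_val)
open Pool.Agent.P8H4.PL (pth_cont pth_alg exists_prime_mem)
open Pool.Agent.Y698.SG.Th (pth)

section

variable {q : ℕ} [Fact q.Prime] {F : Type} [Field F] [NumberField F] (j : F →+* PadicAlgCl q)

lemma val_lt_one_of_norm {x : F} (hx : ‖j x‖ < 1) : (pls j).valuation F x < 1 := by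
  by_contra h
  rw [not_lt] at h
  have hx0 : x ≠ 0 := by
    rintro rfl
    rw [map_zero] at h
    exact absurd h (by simp)
  have h1 : (pls j).valuation F x⁻¹ ≤ 1 := by
    rw [map_inv₀]
    exact inv_le_one_of_one_le₀ h
  have h2 := norm_le_one_of_val j h1
  rw [map_inv₀, norm_inv] at h2
  have h5 : 0 < ‖j x‖ := norm_pos_iff.2 ((map_ne_zero j).2 hx0)
  have h6 := (inv_le_one₀ h5).1 h2
  linarith

lemma mem_pls : (q : 𝓞 F) ∈ (pls j).asIdeal := by
  show ‖j (algebraMap (𝓞 F) F (q : 𝓞 F))‖ < 1
  rw [map_natCast, map_natCast]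
  have h1 : ((q : ℕ) : PadicAlgCl q) = algebraMap ℚ_[q] (PadicAlgCl q) (q : ℚ_[q]) := by
    rw [map_natCast]
  have h3 := PadicAlgCl.norm_extends q (q : ℚ_[q])
  rw [h1]
  refine h3.trans_lt ?_
  exact Padic.norm_p_lt_one

end

/-- every finite place is given by an embedding -/
theorem exists_pls (K : Type) [Field K] [NumberField K] (v : HeightOneSpectrum (𝓞 K)) :
    ∃ (q : ℕ) (_ : Fact q.Prime) (j : K →+* PadicAlgCl q), pls j = v := by
  obtain ⟨p, hp, hpv⟩ := exists_prime_mem v
  have : Fact p.Prime := ⟨hp⟩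
  refine ⟨p, ⟨hp⟩, ?_⟩
  let ψ := pth hpv
  let i1 : Algebra ℚ_[p] (v.adicCompletion K) := ψ.toAlgebra
  have hfin : Module.Finite ℚ_[p] (v.adicCompletion K) := pth_alg hpv
  have : Algebra.IsAlgebraic ℚ_[p] (v.adicCompletion K) := Algebra.IsAlgebraic.of_finite _ _
  have : ContinuousSMul ℚ_[p] (v.adicCompletion K) := by
    refine ⟨?_⟩
    have : (fun x : ℚ_[p] × v.adicCompletion K => x.1 • x.2) = fun x => ψ x.1 * x.2 := by
      funext x
      exact Algebra.smul_def _ _
    rw [this]
    exact ((pth_cont hpv).comp continuous_fst).mul continuous_snd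
  let β : v.adicCompletion K →ₐ[ℚ_[p]] PadicAlgCl p := IsAlgClosed.lift
  have hβ : Continuous β := LinearMap.continuous_of_finiteDimensional β.toLinearMap
  let j : K →+* PadicAlgCl p := (β : v.adicCompletion K →+* PadicAlgCl p).comp
    (algebraMap K (v.adicCompletion K))
  refine ⟨j, ?_⟩
  have key : v.asIdeal ≤ pid j := by
    intro x hx
    rw [mem_pid]
    have h1 : Valued.v (algebraMap K (v.adicCompletion K) (algebraMap (𝓞 K) K x)) < 1 := by
      have h2 : Valued.v (algebraMap K (v.adicCompletion K) (algebraMap (𝓞 K) K x)) =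
        v.valuation K (algebraMap (𝓞 K) K x) :=
        HeightOneSpectrum.valuedAdicCompletion_eq_valuation' v _
      rw [h2]
      exact (v.valuation_lt_one_iff_mem (K := K) x).2 hx
    have h2 := Valued.tendsto_zero_pow_of_v_lt_one h1
    have h3 := (hβ.tendsto 0).comp h2
    rw [map_zero] at h3
    have h4 := (Metric.tendsto_nhds.1 h3 1 one_pos).exists
    obtain ⟨n, hn⟩ := h4
    rw [dist_zero_right] at hn
    have h5 : ‖j (algebraMap (𝓞 K) K x) ^ n‖ < 1 := by
      have e : j (algebraMap (𝓞 K) K x) ^ n =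
          β ((algebraMap K (v.adicCompletion K) (algebraMap (𝓞 K) K x)) ^ n) := (map_pow β _ _).symm
      rw [e]
      exact hn
    rw [norm_pow] at h5
    by_contra h6
    rw [not_lt] at h6
    exact absurd h5 (not_lt.2 (one_le_pow₀ h6))
  apply HeightOneSpectrum.ext
  have hmax : v.asIdeal.IsMaximal := v.isMaximal
  exact (hmax.eq_of_le (pls j).isPrime.ne_top key).symm

end Pool.Agent.P8H55.UL
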