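import Pool.Agent.P8H17.UL.Stm2
import Pool.Agent.P8H55.UL.Pls

/-!
# Project UL: the index in the local field and in the completion
-/

set_option autoImplicit false

open WeierstrassCurve NumberField IsDedekindDomain

namespace Pool.Agent.P8H55.UL

open Pool.Agent.P8H17.UL
open Pool.Agent.TH841.NF (pls jc jc_coe lf mem_lf norm_le_one_of_val jl jl_cont)
open Pool.Agent.P8H4.PK (DD fixed_lf mem_DD)
open Pool.Agent.P8H4.PL (val_le_one_of_norm pth_cont)
open Pool.Agent.Y698.SG.Th (pth)

variable {q : ℕ} [Fact q.Prime] {F : Type} [Field F] [NumberField F] (j : F →+* PadicAlgCl q)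

lemma jc_cont : Continuous (jc j) := by
  have h1 : Continuous (UniformSpace.Completion.extensionHom (jl j) (jl_cont j)) :=
    UniformSpace.Completion.continuous_extension
  have h2 : Continuous (HeightOneSpectrum.adicCompletion.equiv F (pls j)) :=
    (HeightOneSpectrum.adicCompletion.uniformEquiv F (pls j)).continuous
  exact continuous_subtype_val.comp (h1.comp h2)

lemma jc_mem (y : (pls j).adicCompletion F) : jc j y ∈ lf j := Subtype.property _

lemma jc_pth (z : ℚ_[q]) :
    jc j (pth (mem_pls j) z) = algebraMap ℚ_[q] (PadicAlgCl q) z := by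
  have h1 : Continuous fun z => jc j (pth (mem_pls j) z) := (jc_cont j).comp (pth_cont _)
  have h2 : Continuous fun z => algebraMap ℚ_[q] (PadicAlgCl q) z :=
    continuous_algebraMap ℚ_[q] (PadicAlgCl q)
  exact congrFun ((Padic.denseRange_ratCast q).equalizer h1 h2 (by
    funext r
    show jc j (pth (mem_pls j) (r : ℚ_[q])) = algebraMap ℚ_[q] (PadicAlgCl q) (r : ℚ_[q])
    rw [map_ratCast, map_ratCast, map_ratCast])) z

lemma jc_surj {x : PadicAlgCl q} (hx : x ∈ lf j) : ∃ y, jc j y = x := by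
  let R : IntermediateField ℚ_[q] (PadicAlgCl q) :=
    (jc j).fieldRange.toIntermediateField (fun z => ⟨pth (mem_pls j) z, jc_pth j z⟩)
  have h : lf j ≤ R := by
    unfold Pool.Agent.TH841.NF.lf
    rw [IntermediateField.adjoin_le_iff]
    rintro _ ⟨i, rfl⟩
    exact ⟨_, jc_coe j _⟩
  exact h hx

/-- an element of `F` near a given element -/
lemma near (x : (pls j).adicCompletion F) :
    ∃ a : F, Valued.v (x - algebraMap F _ a) ≤ 1 ∧ ‖jc j x - j a‖ ≤ 1 := by
  have h1 : IsOpen {y : (pls j).adicCompletion F |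
      x - y ∈ ((Valued.v : Valuation ((pls j).adicCompletion F) _).integer : Set _)} :=
    (Valued.isOpen_integer ((pls j).adicCompletion F)).preimage (by fun_prop)
  have h2 : IsOpen {y : (pls j).adicCompletion F | ‖jc j x - jc j y‖ < 1} :=
    isOpen_lt (continuous_norm.comp (continuous_const.sub (jc_cont j))) continuous_const
  have h3 := (h1.inter h2)
  obtain ⟨a, ha⟩ := ((pls j).denseRange_algebraMap F).exists_mem_open h3 ⟨x, by
    refine ⟨?_, ?_⟩
    · show x - x ∈ ((Valued.v : Valuation ((pls j).adicCompletion F) _).integer : Set _)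
      rw [sub_self]
      exact zero_mem _
    · show ‖jc j x - jc j x‖ < 1
      rw [sub_self, norm_zero]
      exact one_pos⟩
  refine ⟨a, ha.1, ?_⟩
  have h4 : ‖jc j x - jc j (algebraMap F _ a)‖ < 1 := ha.2
  rw [jc_coe] at h4
  exact h4.le

lemma vF (a : F) : Valued.v (algebraMap F ((pls j).adicCompletion F) a) =
    (pls j).valuation F a :=
  HeightOneSpectrum.valuedAdicCompletion_eq_valuation' (pls j) a

lemma le_iff (x : (pls j).adicCompletion F) : Valued.v x ≤ 1 ↔ ‖jc j x‖ ≤ 1 := by
  obtain ⟨a, h1, h2⟩ := near j x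
  constructor
  · intro h
    have h3 : Valued.v (algebraMap F ((pls j).adicCompletion F) a) ≤ 1 := by
      have e : algebraMap F ((pls j).adicCompletion F) a =
        x - (x - algebraMap F ((pls j).adicCompletion F) a) := by ring
      rw [e]
      exact (Valuation.map_sub _ _ _).trans (max_le h h1)
    rw [vF] at h3
    have h4 := norm_le_one_of_val j h3
    have e : jc j x = (jc j x - j a) + j a := by ring
    rw [e]
    exact (IsUltrametricDist.norm_add_le_max _ _).trans (max_le h2 h4)
  · intro h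
    have h3 : ‖j a‖ ≤ 1 := by
      have e : j a = jc j x + -(jc j x - j a) := by ring
      rw [e]
      refine (IsUltrametricDist.norm_add_le_max _ _).trans (max_le h ?_)
      rwa [norm_neg]
    have h4 := val_le_one_of_norm j h3
    rw [← vF] at h4
    have e : x = (x - algebraMap F ((pls j).adicCompletion F) a) +
      algebraMap F ((pls j).adicCompletion F) a := by ring
    rw [e]
    exact (Valuation.map_add _ _ _).trans (max_le h1 h4)

lemma lt_iff (x : (pls j).adicCompletion F) : 1 < Valued.v x ↔ 1 < ‖jc j x‖ := by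
  rw [← not_le, ← not_le, le_iff]

lemma eq_iff (x : (pls j).adicCompletion F) : Valued.v x = 1 ↔ ‖jc j x‖ = 1 := by
  rcases eq_or_ne x 0 with rfl | hx
  · rw [map_zero, map_zero, norm_zero]
    exact iff_of_false zero_ne_one zero_ne_one
  · have h0 : 0 < Valued.v x := zero_lt_iff.2 ((Valuation.ne_zero_iff _).2 hx)
    have h0' : 0 < ‖jc j x‖ := norm_pos_iff.2 ((map_ne_zero _).2 hx)
    rw [le_antisymm_iff, le_antisymm_iff, le_iff, ← inv_le_one₀ h0, ← map_inv₀, le_iff,
      map_inv₀, norm_inv, inv_le_one₀ h0']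

/-- the elements of the decomposition group fix the local field -/
lemma fix_jc {τ : RingAut (PadicAlgCl q)} (hτ : τ ∈ DD j) (y : (pls j).adicCompletion F) :
    τ (jc j y) = jc j y := by
  have hc : Continuous τ := by
    have : Isometry τ := by
      apply AddMonoidHomClass.isometry_of_norm
      exact hτ.1
    exact this.continuous
  have h1 : Continuous fun y => τ (jc j y) := hc.comp (jc_cont j)
  exact congrFun (((pls j).denseRange_algebraMap F).equalizer h1 (jc_cont j) (by
    funext a
    show τ (jc j (algebraMap F _ a)) = jc j (algebraMap F _ a)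
    rw [jc_coe]
    exact hτ.2 a)) y

section

variable {W : WeierstrassCurve (𝓞 F)} {V : WeierstrassCurve (PadicAlgCl q)}

lemma cpl_map (hW : W.map (j.comp (algebraMap (𝓞 F) F)) = V) :
    (cpl W (pls j)).map (jc j) = V := by
  rw [← hW, cpl, WeierstrassCurve.map_map]
  congr 1
  ext x
  exact jc_coe j _

variable {G : Subgroup (RingAut (PadicAlgCl q))}

lemma range_eq (hW : W.map (j.comp (algebraMap (𝓞 F) F)) = V) (hG : DD j ≤ G) (hV : FixW V G) :
    (mp (jc j) (cpl_map j hW)).range = Fix hV ((DD j).subgroupOf G) := by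
  ext P
  constructor
  · rintro ⟨R, rfl⟩
    rcases pt_cases R with rfl | ⟨x, y, h, rfl⟩
    · rw [map_zero]
      exact zero_mem _
    · rw [mp_pt, pt_mem_Fix]
      intro σ hσ
      have hσ' : (σ : RingAut (PadicAlgCl q)) ∈ DD j := Subgroup.mem_subgroupOf.1 hσ
      exact ⟨fix_jc j hσ' x, fix_jc j hσ' y⟩
  · intro hP
    rcases pt_cases P with rfl | ⟨x, y, h, rfl⟩
    · exact ⟨0, map_zero _⟩
    · rw [pt_mem_Fix] at hP
      obtain ⟨x0, rfl⟩ := jc_surj j (fixed_lf j fun τ hτ =>
        (hP ⟨τ, hG hτ⟩ (Subgroup.mem_subgroupOf.2 hτ)).1)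
      obtain ⟨y0, rfl⟩ := jc_surj j (fixed_lf j fun τ hτ =>
        (hP ⟨τ, hG hτ⟩ (Subgroup.mem_subgroupOf.2 hτ)).2)
      have h0 : (cpl W (pls j)).toAffine.Nonsingular x0 y0 := by
        have h1 : ((cpl W (pls j)).map (jc j)).toAffine.Nonsingular (jc j x0) (jc j y0) := by
          rw [cpl_map j hW]
          exact h
        exact ((cpl W (pls j)).toAffine.map_nonsingular (jc j).injective x0 y0).1 h1
      exact ⟨pt h0, mp_pt _ _ _⟩

lemma comap_eq (hW : W.map (j.comp (algebraMap (𝓞 F) F)) = V) (E : AddSubgroup (Pt V))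
    (hE : ∀ P, P ∈ E ↔ NS P) : E.comap (mp (jc j) (cpl_map j hW)) = E0G W (pls j) := by
  have a1 : V.a₁ = jc j (cpl W (pls j)).a₁ := by rw [← cpl_map j hW, WeierstrassCurve.map_a₁]
  have a2 : V.a₂ = jc j (cpl W (pls j)).a₂ := by rw [← cpl_map j hW, WeierstrassCurve.map_a₂]
  have a3 : V.a₃ = jc j (cpl W (pls j)).a₃ := by rw [← cpl_map j hW, WeierstrassCurve.map_a₃]
  have a4 : V.a₄ = jc j (cpl W (pls j)).a₄ := by rw [← cpl_map j hW, WeierstrassCurve.map_a₄]
  have key : ∀ (x y : (pls j).adicCompletion F),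
      (1 < Valued.v x ∨
        Valued.v ((cpl W (pls j)).a₁ * y - (3 * x ^ 2 + 2 * (cpl W (pls j)).a₂ * x +
          (cpl W (pls j)).a₄)) = 1 ∨
        Valued.v (2 * y + (cpl W (pls j)).a₁ * x + (cpl W (pls j)).a₃) = 1) ↔
      (1 < ‖jc j x‖ ∨ ‖V.a₁ * jc j y - (3 * jc j x ^ 2 + 2 * V.a₂ * jc j x + V.a₄)‖ = 1 ∨
        ‖2 * jc j y + V.a₁ * jc j x + V.a₃‖ = 1) := by
    intro x y
    rw [lt_iff, eq_iff, eq_iff, a1, a2, a3, a4]
    simp only [map_add, map_sub, map_mul, map_pow, map_ofNat]
  have h1 : (E.comap (mp (jc j) (cpl_map j hW)) : Set (Pt (cpl W (pls j)))) =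
      {P | ∀ (x y : (pls j).adicCompletion F) (h : (cpl W (pls j)).toAffine.Nonsingular x y),
        P = pt h → 1 < Valued.v x ∨
        Valued.v ((cpl W (pls j)).a₁ * y - (3 * x ^ 2 + 2 * (cpl W (pls j)).a₂ * x +
          (cpl W (pls j)).a₄)) = 1 ∨
        Valued.v (2 * y + (cpl W (pls j)).a₁ * x + (cpl W (pls j)).a₃) = 1} := by
    ext P
    show mp (jc j) (cpl_map j hW) P ∈ E ↔ _
    rw [hE]
    constructor
    · rintro h x y hn rfl
      rw [key]
      exact h _ _ (ns_map (cpl_map j hW) hn) (mp_pt _ _ _)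
    · intro h x y hn e
      rcases pt_cases P with rfl | ⟨x0, y0, hn0, rfl⟩
      · rw [map_zero] at e
        exact absurd e.symm (pt_ne _)
      · rw [mp_pt] at e
        obtain ⟨rfl, rfl⟩ := pt_inj e
        rw [← key]
        exact h _ _ hn0 rfl
  unfold E0G
  rw [← h1, AddSubgroup.closure_eq]

end

/-- CM: the index in the local field and in the completion -/
theorem cm : S_CM := by
  intro q _ F _ _ j W V hW G hG hV E hE
  unfold tnG
  rw [← comap_eq j hW E hE, AddSubgroup.index_comap, range_eq j hW hG hV]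

end Pool.Agent.P8H55.UL
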