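import Pool.Agent.P8H17.UL.Stm2
import Pool.Agent.P8H55.UL.Pls

/-!
# Project UL: minimality at a place which is not ramified
-/

set_option autoImplicit false

open WeierstrassCurve NumberField IsDedekindDomain

namespace Pool.Agent.P8H55.UL

open Pool.Agent.P8H17.UL
open Pool.Agent.TH841.NF (pls lf mem_lf norm_le_one_of_val norm_int pid)
open Pool.Agent.P8H4.PK (DD fixed_lf mem_DD)
open Pool.Agent.P8H4.PL (val_le_one_of_norm approx val_rel Ram)

section gen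

variable {k K : Type} [Field k] [NumberField k] [Field K] [NumberField K] [Algebra k K]

omit [NumberField k] [NumberField K] in
lemma base_eq (W : WeierstrassCurve (𝓞 k)) :
    (W.map (algebraMap (𝓞 k) (𝓞 K))).map (algebraMap (𝓞 K) K) =
      (W.map (algebraMap (𝓞 k) k)).map (algebraMap k K) := by
  rw [WeierstrassCurve.map_map, WeierstrassCurve.map_map]
  rfl

/-- minimality over the extension implies minimality -/
lemma min_down (W : WeierstrassCurve (𝓞 k)) {v : HeightOneSpectrum (𝓞 K)} (hv : ¬ Ram k v)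
    (h : MinG (W.map (algebraMap (𝓞 k) (𝓞 K))) v) : MinG W (v.under (𝓞 k)) := by
  intro C h1 h2 h3 h4 h6
  have e : (C.map (algebraMap k K)) • (W.map (algebraMap (𝓞 k) (𝓞 K))).map (algebraMap (𝓞 K) K) =
      (C • W.map (algebraMap (𝓞 k) k)).map (algebraMap k K) := by
    rw [base_eq, WeierstrassCurve.map_variableChange]
  have h := h (C.map (algebraMap k K))
  rw [e, base_eq] at h
  simp only [WeierstrassCurve.map_a₁, WeierstrassCurve.map_a₂, WeierstrassCurve.map_a₃,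
    WeierstrassCurve.map_a₄, WeierstrassCurve.map_a₆,
    WeierstrassCurve.map_Δ (f := algebraMap k K), val_rel v hv] at h
  exact h h1 h2 h3 h4 h6

end gen

/-- the coefficients of the equation after a change of variables -/
def cf {Ω : Type} [Field Ω] (V : WeierstrassCurve Ω) (p : Ω × Ω × Ω × Ω) : Fin 5 → Ω :=
  ![p.1⁻¹ * (V.a₁ + 2 * p.2.2.1),
    p.1⁻¹ ^ 2 * (V.a₂ - p.2.2.1 * V.a₁ + 3 * p.2.1 - p.2.2.1 ^ 2),
    p.1⁻¹ ^ 3 * (V.a₃ + p.2.1 * V.a₁ + 2 * p.2.2.2),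
    p.1⁻¹ ^ 4 * (V.a₄ - p.2.2.1 * V.a₃ + 2 * p.2.1 * V.a₂ - (p.2.2.2 + p.2.1 * p.2.2.1) * V.a₁ +
      3 * p.2.1 ^ 2 - 2 * p.2.2.1 * p.2.2.2),
    p.1⁻¹ ^ 6 * (V.a₆ + p.2.1 * V.a₄ + p.2.1 ^ 2 * V.a₂ + p.2.1 ^ 3 - p.2.2.2 * V.a₃ -
      p.2.2.2 ^ 2 - p.2.1 * p.2.2.2 * V.a₁)]

lemma cf_eq {Ω : Type} [Field Ω] (V : WeierstrassCurve Ω) (C : VariableChange Ω) :
    cf V ((C.u : Ω), C.r, C.s, C.t) =
      ![(C • V).a₁, (C • V).a₂, (C • V).a₃, (C • V).a₄, (C • V).a₆] := by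
  simp only [cf, variableChange_a₁, variableChange_a₂, variableChange_a₃, variableChange_a₄,
    variableChange_a₆, Units.val_inv_eq_inv_val]

lemma cf_cont {Ω : Type} [NormedField Ω] (V : WeierstrassCurve Ω) {p : Ω × Ω × Ω × Ω}
    (hp : p.1 ≠ 0) (i : Fin 5) : ContinuousAt (fun p => cf V p i) p := by
  have h0 : ContinuousAt (fun p : Ω × Ω × Ω × Ω => p.1⁻¹) p := continuous_fst.continuousAt.inv₀ hp
  fin_cases i
  · exact h0.mul (by fun_prop)
  · exact (h0.pow 2).mul (by fun_prop)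
  · exact (h0.pow 3).mul (by fun_prop)
  · exact (h0.pow 4).mul (by fun_prop)
  · exact (h0.pow 6).mul (by fun_prop)

section loc

variable {q : ℕ} [Fact q.Prime]
variable {k : Type} [Field k] [NumberField k] (j : k →+* PadicAlgCl q)

/-- approximation of a change of variables -/
lemma approx_vc (V : WeierstrassCurve (PadicAlgCl q)) (C : VariableChange (PadicAlgCl q))
    (hu : (C.u : PadicAlgCl q) ∈ lf j) (hr : C.r ∈ lf j) (hs : C.s ∈ lf j) (ht : C.t ∈ lf j) :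
    ∃ C' : VariableChange k, ‖j (C'.u : k)‖ = ‖(C.u : PadicAlgCl q)‖ ∧
      ‖((C'.map j) • V).a₁ - (C • V).a₁‖ ≤ 1 ∧ ‖((C'.map j) • V).a₂ - (C • V).a₂‖ ≤ 1 ∧
      ‖((C'.map j) • V).a₃ - (C • V).a₃‖ ≤ 1 ∧ ‖((C'.map j) • V).a₄ - (C • V).a₄‖ ≤ 1 ∧
      ‖((C'.map j) • V).a₆ - (C • V).a₆‖ ≤ 1 := by
  have hu0 : (C.u : PadicAlgCl q) ≠ 0 := C.u.ne_zero
  have hun : 0 < ‖(C.u : PadicAlgCl q)‖ := norm_pos_iff.2 hu0
  have h1 : ∀ i : Fin 5, ∀ᶠ p in nhds ((C.u : PadicAlgCl q), C.r, C.s, C.t),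
      ‖cf V p i - cf V ((C.u : PadicAlgCl q), C.r, C.s, C.t) i‖ < 1 := by
    intro i
    have h2 := (cf_cont V (p := ((C.u : PadicAlgCl q), C.r, C.s, C.t)) hu0 i)
    have h3 := Metric.tendsto_nhds.1 h2 1 one_pos
    simpa only [dist_eq_norm] using h3
  have h2 := Filter.eventually_all.2 h1
  obtain ⟨ε, hε, h3⟩ := Metric.eventually_nhds_iff.1 h2
  obtain ⟨a, ha⟩ := approx j hu (lt_min hε hun)
  obtain ⟨b, hb⟩ := approx j hr hε
  obtain ⟨c, hc⟩ := approx j hs hε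
  obtain ⟨d, hd⟩ := approx j ht hε
  have hau : ‖j a‖ = ‖(C.u : PadicAlgCl q)‖ := by
    have e : j a = (C.u : PadicAlgCl q) + -((C.u : PadicAlgCl q) - j a) := by ring
    have h4 : ‖-((C.u : PadicAlgCl q) - j a)‖ < ‖(C.u : PadicAlgCl q)‖ := by
      rw [norm_neg]
      exact ha.trans_le (min_le_right _ _)
    rw [e, IsUltrametricDist.norm_add_eq_max_of_norm_ne_norm h4.ne', max_eq_left h4.le]
  have ha0 : a ≠ 0 := by
    rintro rfl
    rw [map_zero, norm_zero] at hau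
    exact hun.ne hau
  have h4 := @h3 (j a, j b, j c, j d) (by
    rw [dist_comm, Prod.dist_eq, Prod.dist_eq, Prod.dist_eq]
    refine max_lt ?_ (max_lt ?_ (max_lt ?_ ?_))
    · exact (dist_eq_norm _ _).trans_lt (ha.trans_le (min_le_left _ _))
    · exact (dist_eq_norm _ _).trans_lt hb
    · exact (dist_eq_norm _ _).trans_lt hc
    · exact (dist_eq_norm _ _).trans_lt hd)
  let C' : VariableChange k := ⟨Units.mk0 a ha0, b, c, d⟩
  have e1 : cf V (j a, j b, j c, j d) = ![((C'.map j) • V).a₁, ((C'.map j) • V).a₂,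
      ((C'.map j) • V).a₃, ((C'.map j) • V).a₄, ((C'.map j) • V).a₆] := cf_eq V (C'.map j)
  rw [e1, cf_eq V C] at h4
  exact ⟨C', hau, (h4 0).le, (h4 1).le, (h4 2).le, (h4 3).le, (h4 4).le⟩

end loc

/-- MG: minimality at a place which is not ramified -/
theorem mg (hMQ : S_MQ) (hSI : S_SI) : S_MG := by
  intro k K _ _ _ _ _ _ p n hp hn W hΔ v hv
  refine ⟨min_down W hv, fun hmin => ?_⟩
  intro C h1 h2 h3 h4 h6
  by_contra hlt
  rw [not_le] at hlt
  obtain ⟨q, hq, j, rfl⟩ := exists_pls K v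
  set j0 : k →+* PadicAlgCl q := j.comp (algebraMap k K) with hj0
  have hpls : (pls j).under (𝓞 k) = pls j0 := by
    apply HeightOneSpectrum.ext
    rfl
  rw [hpls] at hmin
  set WK : WeierstrassCurve K := (W.map (algebraMap (𝓞 k) (𝓞 K))).map (algebraMap (𝓞 K) K) with hWK
  set Wk : WeierstrassCurve k := W.map (algebraMap (𝓞 k) k) with hWk
  have hWb : WK = Wk.map (algebraMap k K) := base_eq W
  -- the discriminants
  have hΔk : Wk.Δ ≠ 0 := by
    rw [hWk, WeierstrassCurve.map_Δ]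
    exact (map_ne_zero_iff _ (FaithfulSMul.algebraMap_injective (𝓞 k) k)).2 hΔ
  have hΔK : WK.Δ ≠ 0 := by
    rw [hWb, WeierstrassCurve.map_Δ]
    exact (map_ne_zero _).2 hΔk
  have hvu : (pls j).valuation K (C.u : K) < 1 := by
    rw [variableChange_Δ, map_mul, map_pow, Units.val_inv_eq_inv_val, map_inv₀] at hlt
    by_contra hcon
    rw [not_lt] at hcon
    have h5 : ((pls j).valuation K (C.u : K))⁻¹ ^ 12 ≤ 1 := pow_le_one₀ zero_le (inv_le_one_of_one_le₀ hcon)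
    have h7 := mul_le_mul_left h5 ((pls j).valuation K WK.Δ)
    rw [one_mul] at h7
    exact absurd hlt (not_lt.2 h7)
  have hu : ‖j (C.u : K)‖ < 1 := by
    by_contra hcon
    rw [not_lt] at hcon
    have h5 : ‖j (C.u : K)⁻¹‖ ≤ 1 := by
      rw [map_inv₀, norm_inv]
      exact inv_le_one_of_one_le₀ hcon
    have h7 := val_le_one_of_norm j h5
    rw [map_inv₀] at h7
    have h8 : 0 < (pls j).valuation K (C.u : K) :=
      zero_lt_iff.2 ((Valuation.ne_zero_iff _).2 C.u.ne_zero)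
    exact absurd ((inv_le_one₀ h8).1 h7) (not_le.2 hvu)
  set V : WeierstrassCurve (PadicAlgCl q) := Wk.map j0 with hVdef
  have hVK : V = WK.map j := by
    rw [hWb]
    exact (WeierstrassCurve.map_map (W := Wk) (algebraMap k K) j).symm
  have hV : FixW V (DD j0) := by
    intro τ hτ
    rw [hVdef, WeierstrassCurve.map_map]
    congr 1
    ext x
    exact hτ.2 x
  have hVΔ : V.Δ ≠ 0 := by
    rw [hVdef, WeierstrassCurve.map_Δ]
    exact (map_ne_zero _).2 hΔk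
  have hIV : IntW V := by
    refine ⟨?_, ?_, ?_, ?_, ?_, hVΔ⟩
    · exact norm_int j0 W.a₁
    · exact norm_int j0 W.a₂
    · exact norm_int j0 W.a₃
    · exact norm_int j0 W.a₄
    · exact norm_int j0 W.a₆
  have hCV : (C.map j) • V = (C • WK).map j := by
    rw [hVK, WeierstrassCurve.map_variableChange]
  have hICV : IntW ((C.map j) • V) := by
    refine ⟨?_, ?_, ?_, ?_, ?_, ?_⟩
    · rw [hCV]; exact norm_le_one_of_val j h1
    · rw [hCV]; exact norm_le_one_of_val j h2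
    · rw [hCV]; exact norm_le_one_of_val j h3
    · rw [hCV]; exact norm_le_one_of_val j h4
    · rw [hCV]; exact norm_le_one_of_val j h6
    · rw [variableChange_Δ]
      exact mul_ne_zero (pow_ne_zero _ (Units.ne_zero _)) hVΔ
  obtain ⟨φ, m, Q, hS⟩ := hSI q k K p n hp hn j hv
  obtain ⟨C', hu', hI', hfix⟩ := hMQ _ _ _ φ p m Q hS V hIV hV (C.map j) hu hICV (by
    intro σ hσ
    have hσ' : (σ : RingAut (PadicAlgCl q)) ∈ DD j := Subgroup.mem_subgroupOf.1 hσ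
    exact ⟨hσ'.2 _, hσ'.2 _, hσ'.2 _, hσ'.2 _⟩)
  obtain ⟨C'', hu'', g1, g2, g3, g4, g6⟩ := approx_vc j0 V C'
    (fixed_lf j0 fun τ hτ => (hfix ⟨τ, hτ⟩).1) (fixed_lf j0 fun τ hτ => (hfix ⟨τ, hτ⟩).2.1)
    (fixed_lf j0 fun τ hτ => (hfix ⟨τ, hτ⟩).2.2.1) (fixed_lf j0 fun τ hτ => (hfix ⟨τ, hτ⟩).2.2.2)
  have hCV' : (C''.map j0) • V = (C'' • Wk).map j0 := by
    rw [hVdef, WeierstrassCurve.map_variableChange]
  have tri : ∀ x y : PadicAlgCl q, ‖x - y‖ ≤ 1 → ‖y‖ ≤ 1 → ‖x‖ ≤ 1 := by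
    intro x y hxy hy
    have e : x = (x - y) + y := by ring
    rw [e]
    exact (IsUltrametricDist.norm_add_le_max _ _).trans (max_le hxy hy)
  rw [hCV'] at g1 g2 g3 g4 g6
  have hm := hmin C'' (val_le_one_of_norm j0 (tri _ _ g1 hI'.h1))
    (val_le_one_of_norm j0 (tri _ _ g2 hI'.h2)) (val_le_one_of_norm j0 (tri _ _ g3 hI'.h3))
    (val_le_one_of_norm j0 (tri _ _ g4 hI'.h4)) (val_le_one_of_norm j0 (tri _ _ g6 hI'.h6))
  have hu3 : (pls j0).valuation k (C''.u : k) < 1 := by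
    apply val_lt_one_of_norm
    rw [hu'', hu']
    exact hu
  rw [← hWk, variableChange_Δ, map_mul, map_pow, Units.val_inv_eq_inv_val, map_inv₀] at hm
  have h8 : 0 < (pls j0).valuation k (C''.u : k) :=
    zero_lt_iff.2 ((Valuation.ne_zero_iff _).2 C''.u.ne_zero)
  have h9 : 0 < (pls j0).valuation k Wk.Δ := zero_lt_iff.2 ((Valuation.ne_zero_iff _).2 hΔk)
  have h10 : 1 < ((pls j0).valuation k (C''.u : k))⁻¹ := (one_lt_inv₀ h8).2 hu3
  have h11 : 1 < ((pls j0).valuation k (C''.u : k))⁻¹ ^ 12 := one_lt_pow₀ h10 (by norm_num)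
  have h12 : (pls j0).valuation k Wk.Δ <
      ((pls j0).valuation k (C''.u : k))⁻¹ ^ 12 * (pls j0).valuation k Wk.Δ := by
    conv_lhs => rw [← one_mul ((pls j0).valuation k Wk.Δ)]
    exact mul_lt_mul_of_pos_right h11 h9
  exact absurd hm (not_le.2 h12)

end Pool.Agent.P8H55.UL
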